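import Pool.Agent.Lib.WHB.Main
import Pool.Agent.Lib.WHX.ConDefs
import Pool.Agent.Lib.WZ.Defs

/-!
# Theorem B for the ring `A = O * G` of the construction block (Theorem W)

`foxData W : FoxData k G I W.A`, `theoremB_wcon`: the classes in `K₁(k[G])` of the matrices over
`k[FreeGroup I]` which are invertible over `A` are trivial; `field_triv`: the classes of invertible
matrices over `k` are trivial.  `Triv` is `WZ.Triv`.
-/

set_option autoImplicit false

open Matrix

namespace Pool.Agent.Lib.WHB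

open Pool.Agent.Lib.MP_16fe43_al Pool.Agent.Lib.STG Pool.Agent.Lib.GD2 Pool.Agent.Lib.WHX

theorem p_mul_hom {G B : Type} [Group G] [Ring B] (R : RG G B) (b c : B) (h x : G)
    (hc : R.p h c = c) : R.p x (b * c) = R.p (x * h⁻¹) b * c := by
  classical
  obtain ⟨F, hF⟩ := R.ex b
  have h1 : ∀ y, R.p x (R.p y b * c) = if x = y * h then R.p y b * c else 0 := by
    intro y
    have h2 := R.mul y h (R.p y b) c (R.pp y b) hc
    split_ifs with hx
    · rw [hx, h2]
    · rw [← h2, R.pp' _ _ _ hx]
  calc R.p x (b * c) = ∑ y ∈ F, R.p x (R.p y b * c) := by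
        conv_lhs => rw [← hF, Finset.sum_mul, map_sum]
    _ = ∑ y ∈ F, (if y = x * h⁻¹ then R.p y b * c else 0) := by
        refine Finset.sum_congr rfl (fun y _ => ?_)
        rw [h1]
        congr 1
        exact propext ⟨fun hh => by rw [hh]; group, fun hh => by rw [hh]; group⟩
    _ = R.p (x * h⁻¹) b * c := by
        by_cases hx : x * h⁻¹ ∈ F
        · rw [Finset.sum_ite_eq' F (x * h⁻¹), if_pos hx]
        · rw [Finset.sum_ite_eq' F (x * h⁻¹), if_neg hx, R.eq_zero hF hx, zero_mul]

section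

variable {k : Type} [Field k] {G I J : Type} [Group G] {T' : GD2.Tri G I J} (W : WCon k T')

/-- the homogeneous components as a linear map -/
noncomputable def decL : W.A →ₗ[k] (G →₀ W.A) where
  toFun a := W.gr.dec a
  map_add' a b := map_add _ a b
  map_smul' c a := by
    ext g
    exact W.gr_smul c g a

/-- the Fox data of the ring `O * G` -/
noncomputable def foxData : FoxData k G I W.A where
  γ := T'.x
  x i := W.io (wd k (FreeGroup.of i))
  δ := decL W
  δ_one := W.gr.dec_of_hom W.gr.one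
  δ_mul a j h := by
    show W.gr.p h (a * _) = W.gr.p (h * (T'.x j)⁻¹) a * _
    refine p_mul_hom W.gr a _ (T'.x j) h ?_
    have := W.io_hom (FreeGroup.of j)
    rwa [FreeGroup.lift_apply_of] at this
  δ_δ a g := W.gr.dec_p g a
  ε := (MonoidAlgebra.lift k k G (1 : G →* k)).comp W.pi
  ε_x j := by
    rw [AlgHom.comp_apply, W.pi_io]
    simp
  fox := W.fox

theorem pi_io_eq (a : MonoidAlgebra k (FreeGroup I)) :
    W.pi (W.io a) = MonoidAlgebra.mapDomainRingHom k (FreeGroup.lift T'.x) a := by
  have : W.pi.comp W.io = MonoidAlgebra.mapDomainAlgHom k k (FreeGroup.lift T'.x) := by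
    refine MonoidAlgebra.algHom_ext (fun w => ?_) (AlgHom.ext fun c => ?_)
    · rw [AlgHom.comp_apply]
      refine (W.pi_io w).trans ?_
      simp
    · exact (AlgHom.commutes ((W.pi.comp W.io).comp MonoidAlgebra.singleOneAlgHom) c).trans
        (AlgHom.commutes ((MonoidAlgebra.mapDomainAlgHom k k
          (FreeGroup.lift T'.x)).comp MonoidAlgebra.singleOneAlgHom) c).symm
  exact DFunLike.congr_fun this a

theorem T_le_triv : T k G ≤ WZ.Triv k G := by
  unfold T WZ.Triv
  refine AddSubgroup.closure_mono ?_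
  rintro _ ⟨c, g, rfl⟩
  refine ⟨g, c, Units.map (Matrix.scalar (Fin 1) : MonoidAlgebra k G →+*
    Matrix (Fin 1) (Fin 1) (MonoidAlgebra k G)).toMonoidHom (tru c g), ?_, rfl⟩
  ext1 i j
  have hi : i = 0 := Subsingleton.elim _ _
  have hj : j = 0 := Subsingleton.elim _ _
  subst hi; subst hj
  show (Matrix.scalar (Fin 1) ((tru c g : (MonoidAlgebra k G)ˣ) : MonoidAlgebra k G)) 0 0 = _
  simp [tru]

/-- **Theorem B for `A = O * G`** -/
theorem theoremB_wcon (hG : ∀ g : G, IsOfFinOrder g → g = 1) {ι : Type*} [Fintype ι]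
    [DecidableEq ι] (β : Matrix ι ι (MonoidAlgebra k (FreeGroup I)))
    (hβ : IsUnit (β.map (W.io : MonoidAlgebra k (FreeGroup I) →+* W.A))) :
    cm (β.map ((W.pi : W.A →+* MonoidAlgebra k G).comp
      (W.io : MonoidAlgebra k (FreeGroup I) →+* W.A))) ∈ WZ.Triv k G := by
  have h1 : β.map ((W.pi : W.A →+* MonoidAlgebra k G).comp
      (W.io : MonoidAlgebra k (FreeGroup I) →+* W.A)) =
      β.map (MonoidAlgebra.mapDomainRingHom k (FreeGroup.lift (foxData W).γ)) := by
    ext1 i j
    exact pi_io_eq W (β i j)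
  have h2 : IsUnit (β.map (MonoidAlgebra.mapDomainRingHom k (FreeGroup.lift (foxData W).γ))) := by
    rw [← h1]
    exact isUnit_map (W.pi : W.A →+* MonoidAlgebra k G) hβ
  obtain ⟨u, hu⟩ := hβ
  rw [h1]
  refine T_le_triv (theoremB hG (foxData W) W.io (fun i => rfl) β u.inv ?_ h2)
  have h3 : β.map W.io = u.val := hu.symm
  rw [h3]
  exact u.inv_val

/-- classes of invertible matrices over the field -/
theorem field_triv (f : k →+* MonoidAlgebra k G) (hf : ∀ c, f c = MonoidAlgebra.single 1 c)
    (y : K1 k) : K1.map f y ∈ WZ.Triv k G := by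
  obtain ⟨n, A, rfl⟩ := K1.exists_gen y
  have hf' : f = cf := RingHom.ext fun c => hf c
  rw [hf', ← cl_gen, ← cm_val, K1.map_cm _ A.isUnit]
  exact T_le_triv (field_mem A.val A.isUnit).2

theorem field_triv_wcon (y : K1 k) :
    K1.map ((W.pi : W.A →+* MonoidAlgebra k G).comp (algebraMap k W.A)) y ∈ WZ.Triv k G := by
  refine field_triv _ (fun c => ?_) y
  show W.pi (algebraMap k W.A c) = _
  rw [AlgHom.commutes]
  rfl

end

end Pool.Agent.Lib.WHB
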